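import Pool.Agent.X44.InvPath.Pack

/-!
# Good packings in host graphs of large minimum degree
-/

set_option autoImplicit false

namespace Pool.Agent.X44.InvPath

open Finset

variable {V : Type*} [Fintype V] [DecidableEq V]

/-- degree into a set -/
def degIn (G : SimpleGraph V) [DecidableRel G.Adj] (W : Finset V) (x : V) : ℕ :=
  (W.filter fun y => G.Adj x y).card

/-- the vertices which are not isolated -/
def supp (G : SimpleGraph V) [DecidableRel G.Adj] : Finset V := univ.filter fun x => ∃ y, G.Adj x y

variable (G : SimpleGraph V) [DecidableRel G.Adj]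

theorem mem_supp {x y : V} (h : G.Adj x y) : x ∈ supp G := by
  rw [supp, mem_filter]; exact ⟨mem_univ _, y, h⟩

theorem star_packing (I : Finset V) (φ : V → V) (h1 : ∀ x ∈ I, G.Adj x (φ x))
    (h2 : ∀ x ∈ I, φ x ∉ I) : IsPacking G 1 univ I (fun x => {φ x}) where
  sub := subset_univ _
  sub' := fun _ _ => subset_univ _
  card := fun _ _ => card_singleton _
  out := fun x hx y hy => by rw [mem_singleton] at hy; rw [hy]; exact h2 x hx
  adj := fun x hx y hy => by rw [mem_singleton] at hy; rw [hy]; exact h1 x hx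
  eq := fun x _ x' _ y hy hy' => by
    rw [mem_singleton] at hy hy'
    show ({φ x} : Finset V) = {φ x'}
    rw [← hy, ← hy']

/-- The number of non-isolated vertices is at most twice the size of a path-free subgraph. -/
theorem supp_card {t : ℕ} (ht : 1 ≤ t) :
    (supp G).card ≤ 2 * exIn G (SimpleGraph.pathGraph (2 * t + 2)) := by
  classical
  obtain ⟨I, hI, hmax⟩ := Finset.exists_max_image
    ((supp G).powerset.filter fun I => ∀ x ∈ I, ∀ y ∈ I, ¬ G.Adj x y) Finset.card
    ⟨∅, by simp⟩
  rw [mem_filter, mem_powerset] at hI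
  -- every vertex outside of `I` has a neighbour in `I`
  have hout : ∀ x ∈ supp G \ I, ∃ y, y ∈ I ∧ G.Adj x y := by
    intro x hx
    rw [mem_sdiff] at hx
    by_contra hcon
    push Not at hcon
    have h1 := hmax (insert x I) (by
      rw [mem_filter, mem_powerset]
      refine ⟨insert_subset hx.1 hI.1, ?_⟩
      intro a ha b hb hab
      rw [mem_insert] at ha hb
      rcases ha with rfl | ha
      · rcases hb with rfl | hb
        · exact hab.ne rfl
        · exact hcon b hb hab
      · rcases hb with rfl | hb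
        · exact hcon a ha hab.symm
        · exact hI.2 a ha b hb hab)
    rw [card_insert_of_notMem hx.2] at h1
    omega
  have hin : ∀ x ∈ I, ∃ y, y ∉ I ∧ G.Adj x y := by
    intro x hx
    have := hI.1 hx
    rw [supp, mem_filter] at this
    obtain ⟨y, hy⟩ := this.2
    exact ⟨y, fun h => hI.2 x hx y h hy, hy⟩
  have e1 : (supp G \ I).card ≤ exIn G (SimpleGraph.pathGraph (2 * t + 2)) := by
    let φ : V → V := fun x => if h : ∃ y, y ∈ I ∧ G.Adj x y then h.choose else x
    have hφ : ∀ x ∈ supp G \ I, φ x ∈ I ∧ G.Adj x (φ x) := by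
      intro x hx
      have h := hout x hx
      simp only [φ, dif_pos h]
      exact h.choose_spec
    exact star_le_exIn ht (star_packing G _ φ (fun x hx => (hφ x hx).2) (fun x hx h => by
      rw [mem_sdiff] at h
      exact h.2 (hφ x hx).1))
  have e2 : I.card ≤ exIn G (SimpleGraph.pathGraph (2 * t + 2)) := by
    let φ : V → V := fun x => if h : ∃ y, y ∉ I ∧ G.Adj x y then h.choose else x
    have hφ : ∀ x ∈ I, φ x ∉ I ∧ G.Adj x (φ x) := by
      intro x hx
      have h := hin x hx
      simp only [φ, dif_pos h]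
      exact h.choose_spec
    exact star_le_exIn ht (star_packing G _ φ (fun x hx => (hφ x hx).2) (fun x hx => (hφ x hx).1))
  have e3 := Finset.card_sdiff_add_card_eq_card hI.1
  omega

theorem sum_erase (W : Finset V) (w : V) (hw : w ∈ W) :
    ∑ x ∈ W, degIn G W x = ∑ x ∈ W.erase w, degIn G (W.erase w) x + 2 * degIn G W w := by
  have h1 : ∀ x ∈ W.erase w, degIn G W x = degIn G (W.erase w) x + if G.Adj x w then 1 else 0 := by
    intro x _
    unfold degIn
    by_cases h : G.Adj x w
    · rw [if_pos h, ← Finset.card_erase_add_one (s := W.filter fun y => G.Adj x y) (a := w)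
        (by rw [mem_filter]; exact ⟨hw, h⟩), Finset.filter_erase]
    · rw [if_neg h, add_zero, Finset.filter_erase, Finset.erase_eq_of_notMem]
      rw [mem_filter]; exact fun h2 => h h2.2
  rw [← Finset.sum_erase_add _ _ hw, Finset.sum_congr rfl h1, Finset.sum_add_distrib]
  have h2 : ∑ x ∈ W.erase w, (if G.Adj x w then 1 else 0) = degIn G W w := by
    rw [← Finset.card_filter]
    unfold degIn
    congr 1
    ext x
    simp only [mem_filter, mem_erase]
    constructor
    · rintro ⟨⟨_, h3⟩, h4⟩; exact ⟨h3, h4.symm⟩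
    · rintro ⟨h3, h4⟩; exact ⟨⟨h4.ne.symm, h3⟩, h4.symm⟩
  rw [h2]; ring

/-- cleaning: a set of vertices with large minimum degree inside -/
theorem exists_core (d : ℝ) (hd : 0 ≤ d) :
    ∃ W ⊆ supp G, (∀ w ∈ W, d ≤ degIn G W w) ∧
      2 * (G.edgeFinset.card : ℝ) ≤ (W.card : ℝ) ^ 2 + 2 * d * (supp G).card := by
  classical
  obtain ⟨W, hW, hmax⟩ := Finset.exists_max_image (supp G).powerset
    (fun W => ((∑ x ∈ W, degIn G W x : ℕ) : ℝ) - 2 * d * W.card) ⟨∅, by simp⟩
  rw [mem_powerset] at hW
  refine ⟨W, hW, ?_, ?_⟩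
  · intro w hw
    have h1 := hmax (W.erase w) (by
      rw [mem_powerset]; exact (erase_subset _ _).trans hW)
    rw [sum_erase G W w hw, Finset.card_erase_of_mem hw] at h1
    have h2 : 1 ≤ W.card := Finset.card_pos.2 ⟨w, hw⟩
    push_cast [Nat.cast_sub h2] at h1
    nlinarith
  · have h1 := hmax (supp G) (mem_powerset.2 (Subset.refl _))
    have h2 : ∑ x ∈ supp G, degIn G (supp G) x = 2 * G.edgeFinset.card := by
      rw [← G.sum_degrees_eq_twice_card_edges]
      have h3 : ∀ x, degIn G (supp G) x = G.degree x := by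
        intro x
        unfold degIn
        rw [← SimpleGraph.card_neighborFinset_eq_degree]
        congr 1
        ext y
        simp only [mem_filter, supp, mem_univ, true_and, SimpleGraph.mem_neighborFinset]
        exact ⟨fun h => h.2, fun h => ⟨⟨x, h.symm⟩, h⟩⟩
      rw [Finset.sum_congr rfl (fun x _ => h3 x)]
      apply Finset.sum_subset (subset_univ _)
      intro x _ hx
      by_contra hne
      apply hx
      rw [supp, mem_filter]
      obtain ⟨y, hy⟩ := (G.degree_pos_iff_exists_adj x).1 (Nat.pos_of_ne_zero hne)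
      exact ⟨mem_univ _, y, hy⟩
    rw [h2] at h1
    have h4 : ((∑ x ∈ W, degIn G W x : ℕ) : ℝ) ≤ (W.card : ℝ) ^ 2 := by
      have : ∑ x ∈ W, degIn G W x ≤ ∑ _x ∈ W, W.card :=
        Finset.sum_le_sum (fun x _ => Finset.card_filter_le _ _)
      rw [Finset.sum_const, smul_eq_mul] at this
      have h5 : ((∑ x ∈ W, degIn G W x : ℕ) : ℝ) ≤ ((W.card * W.card : ℕ) : ℝ) := by
        exact_mod_cast this
      rw [sq]; push_cast at h5 ⊢; exact h5
    have h5 : (0 : ℝ) ≤ 2 * d * W.card := by positivity
    push_cast at h1 h4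
    linarith

/-- the union of the `t`-sets of a packing -/
def base (I : Finset V) (Φ : V → Finset V) : Finset V := I.biUnion Φ

/-- **Main lemma**: a packing which leaves few vertices. -/
theorem exists_packing (t β : ℕ) (W : Finset V) :
    ∃ (I : Finset V) (Φ : V → Finset V), IsPacking G t W I Φ ∧
      β * (base I Φ).card ≤ t * I.card ∧
      ∀ D : ℕ, (∀ w ∈ W, D + (base I Φ).card ≤ degIn G W w) →
        (W \ (I ∪ base I Φ)).card * D.choose t ≤ (t + β) * W.card.choose t := by
  classical
  have hne : ((univ : Finset (Finset V × (V → Finset V))).filter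
      fun p => IsPacking G t W p.1 p.2).Nonempty :=
    ⟨(∅, fun _ => ∅), by
      rw [mem_filter]
      exact ⟨mem_univ _, ⟨by simp, by simp, by simp, by simp, by simp, by simp⟩⟩⟩
  obtain ⟨⟨I, Φ⟩, hp, hmax⟩ := Finset.exists_max_image _
    (fun p : Finset V × (V → Finset V) => (p.1.card : ℤ) - β * (p.1.image p.2).card) hne
  rw [mem_filter] at hp
  have hP : IsPacking G t W I Φ := hp.2
  refine ⟨I, Φ, hP, ?_, ?_⟩
  · have h0 := hmax (∅, fun _ => ∅) (by
      rw [mem_filter]
      exact ⟨mem_univ _, ⟨by simp, by simp, by simp, by simp, by simp, by simp⟩⟩)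
    simp only [card_empty, image_empty, Nat.cast_zero, mul_zero, sub_zero] at h0
    have h1 : β * (I.image Φ).card ≤ I.card := by
      have : (β : ℤ) * (I.image Φ).card ≤ I.card := by linarith
      exact_mod_cast this
    have h2 : (base I Φ).card ≤ t * (I.image Φ).card := by
      have : base I Φ = (I.image Φ).biUnion id := by
        unfold base
        ext x
        simp only [mem_biUnion, mem_image, id]
        constructor
        · rintro ⟨a, h3, h4⟩; exact ⟨Φ a, ⟨a, h3, rfl⟩, h4⟩
        · rintro ⟨_, ⟨a, h3, rfl⟩, h4⟩; exact ⟨a, h3, h4⟩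
      rw [this]
      refine Finset.card_biUnion_le.trans ?_
      refine (Finset.sum_le_card_nsmul _ _ t ?_).trans ?_
      · intro C hC
        rw [mem_image] at hC
        obtain ⟨a, h3, rfl⟩ := hC
        exact (hP.card a h3).le
      · rw [smul_eq_mul, mul_comm]
    calc β * (base I Φ).card ≤ β * (t * (I.image Φ).card) := Nat.mul_le_mul_left _ h2
      _ = t * (β * (I.image Φ).card) := by ring
      _ ≤ t * I.card := Nat.mul_le_mul_left _ h1
  · intro D hD
    by_contra hcon
    push Not at hcon
    set A := base I Φ with hA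
    set U := W \ (I ∪ A) with hU
    -- double counting
    have hex : ∃ T ∈ (W \ A).powersetCard t, t + β < (U.filter fun u => ∀ y ∈ T, G.Adj u y).card := by
      by_contra hno
      push Not at hno
      have h1 : ∑ u ∈ U, (((W \ A).powersetCard t).filter fun T => ∀ y ∈ T, G.Adj u y).card =
          ∑ T ∈ (W \ A).powersetCard t, (U.filter fun u => ∀ y ∈ T, G.Adj u y).card :=
        Finset.sum_card_bipartiteAbove_eq_sum_card_bipartiteBelow (fun u T => ∀ y ∈ T, G.Adj u y)
      have h2 : ∀ u ∈ U, D.choose t ≤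
          (((W \ A).powersetCard t).filter fun T => ∀ y ∈ T, G.Adj u y).card := by
        intro u hu
        have h3 : ((W \ A).powersetCard t).filter (fun T => ∀ y ∈ T, G.Adj u y) =
            ((W \ A).filter fun y => G.Adj u y).powersetCard t := by
          ext T
          simp only [mem_filter, mem_powersetCard]
          constructor
          · rintro ⟨⟨h4, h5⟩, h6⟩
            exact ⟨fun y hy => mem_filter.2 ⟨h4 hy, h6 y hy⟩, h5⟩
          · rintro ⟨h4, h5⟩
            exact ⟨⟨fun y hy => (mem_filter.1 (h4 hy)).1, h5⟩, fun y hy => (mem_filter.1 (h4 hy)).2⟩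
        rw [h3, card_powersetCard]
        apply Nat.choose_le_choose
        have h4 : u ∈ W := (mem_sdiff.1 hu).1
        have h5 := hD u h4
        have h6 : degIn G W u ≤ ((W \ A).filter fun y => G.Adj u y).card + A.card := by
          unfold degIn
          refine (Finset.card_le_card (t := ((W \ A).filter fun y => G.Adj u y) ∪ A) ?_).trans
            (Finset.card_union_le _ _)
          intro y hy
          rw [mem_filter] at hy
          rw [mem_union, mem_filter, mem_sdiff]
          by_cases h7 : y ∈ A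
          · exact Or.inr h7
          · exact Or.inl ⟨⟨hy.1, h7⟩, hy.2⟩
        omega
      have h3 : U.card * D.choose t ≤
          ∑ u ∈ U, (((W \ A).powersetCard t).filter fun T => ∀ y ∈ T, G.Adj u y).card := by
        rw [← smul_eq_mul]
        exact Finset.card_nsmul_le_sum _ _ _ h2
      have h4 : ∑ T ∈ (W \ A).powersetCard t, (U.filter fun u => ∀ y ∈ T, G.Adj u y).card ≤
          (t + β) * W.card.choose t := by
        refine (Finset.sum_le_card_nsmul _ _ _ hno).trans ?_
        rw [card_powersetCard, smul_eq_mul, mul_comm]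
        exact Nat.mul_le_mul_left _ (Nat.choose_le_choose _ (Finset.card_le_card sdiff_subset))
      omega
    obtain ⟨T, hT, hS⟩ := hex
    rw [mem_powersetCard] at hT
    set S := U.filter fun u => ∀ y ∈ T, G.Adj u y with hSdef
    have hSU : ∀ x ∈ S, x ∈ W ∧ x ∉ I ∧ x ∉ A := by
      intro x hx
      have h1 := (mem_filter.1 hx).1
      rw [hU, mem_sdiff, mem_union] at h1
      exact ⟨h1.1, fun h => h1.2 (Or.inl h), fun h => h1.2 (Or.inr h)⟩
    have hST : ∀ x ∈ S, ∀ y ∈ T, G.Adj x y := fun x hx => (mem_filter.1 hx).2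
    have hΦA : ∀ x ∈ I, Φ x ⊆ A := by
      intro x hx y hy
      rw [hA, base, mem_biUnion]
      exact ⟨x, hx, hy⟩
    have hTA : ∀ y ∈ T, y ∉ A := fun y hy => (mem_sdiff.1 (hT.1 hy)).2
    let Φ' : V → Finset V := fun x => if x ∈ S then T else Φ x
    have hΦS : ∀ x ∈ S, Φ' x = T := fun x hx => if_pos hx
    have hΦI : ∀ x, x ∉ S → Φ' x = Φ x := fun x hx => if_neg hx
    have hnew : IsPacking G t W ((I \ T) ∪ S) Φ' := by
      have hcases : ∀ x ∈ (I \ T) ∪ S, (x ∈ S ∧ Φ' x = T) ∨ (x ∉ S ∧ x ∈ I ∧ x ∉ T ∧ Φ' x = Φ x) := by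
        intro x hx
        rw [mem_union, mem_sdiff] at hx
        by_cases h1 : x ∈ S
        · exact Or.inl ⟨h1, hΦS x h1⟩
        · rcases hx with hx | hx
          · exact Or.inr ⟨h1, hx.1, hx.2, hΦI x h1⟩
          · exact absurd hx h1
      refine ⟨?_, ?_, ?_, ?_, ?_, ?_⟩
      · intro x hx
        rcases hcases x hx with ⟨h1, _⟩ | ⟨_, h1, _⟩
        · exact (hSU x h1).1
        · exact hP.sub h1
      · intro x hx
        rcases hcases x hx with ⟨_, h2⟩ | ⟨_, h1, _, h2⟩
        · rw [h2]; exact hT.1.trans sdiff_subset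
        · rw [h2]; exact hP.sub' x h1
      · intro x hx
        rcases hcases x hx with ⟨_, h2⟩ | ⟨_, h1, _, h2⟩
        · rw [h2]; exact hT.2
        · rw [h2]; exact hP.card x h1
      · intro x hx y hy
        rw [mem_union, mem_sdiff]
        rcases hcases x hx with ⟨h1, h2⟩ | ⟨_, h1, _, h2⟩
        · rw [h2] at hy
          rintro (h3 | h3)
          · exact h3.2 hy
          · exact (hST y h3 y hy).ne rfl
        · rw [h2] at hy
          rintro (h3 | h3)
          · exact hP.out x h1 y hy h3.1
          · exact (hSU y h3).2.2 (hΦA x h1 hy)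
      · intro x hx y hy
        rcases hcases x hx with ⟨h1, h2⟩ | ⟨_, h1, _, h2⟩
        · rw [h2] at hy; exact hST x h1 y hy
        · rw [h2] at hy; exact hP.adj x h1 y hy
      · intro x hx x' hx' y hy hy'
        rcases hcases x hx with ⟨_, h2⟩ | ⟨_, h1, _, h2⟩
        · rcases hcases x' hx' with ⟨_, h3⟩ | ⟨_, h4, _, h3⟩
          · rw [h2, h3]
          · rw [h2] at hy; rw [h3] at hy'
            exact absurd (hΦA x' h4 hy') (hTA y hy)
        · rcases hcases x' hx' with ⟨_, h3⟩ | ⟨_, h4, _, h3⟩
          · rw [h2] at hy; rw [h3] at hy'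
            exact absurd (hΦA x h1 hy) (hTA y hy')
          · rw [h2] at hy ⊢; rw [h3] at hy' ⊢
            exact hP.eq x h1 x' h4 y hy hy'
    have h1 := hmax (((I \ T) ∪ S), Φ') (by rw [mem_filter]; exact ⟨mem_univ _, hnew⟩)
    simp only at h1
    have h2 : (((I \ T) ∪ S).image Φ').card ≤ (I.image Φ).card + 1 := by
      refine (Finset.card_le_card (t := insert T (I.image Φ)) ?_).trans (Finset.card_insert_le _ _)
      intro C hC
      rw [mem_image] at hC
      obtain ⟨x, hx, rfl⟩ := hC
      rw [mem_union, mem_sdiff] at hx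
      by_cases h3 : x ∈ S
      · rw [hΦS x h3]; exact mem_insert_self _ _
      · rcases hx with hx | hx
        · rw [hΦI x h3]
          exact mem_insert_of_mem (mem_image_of_mem _ hx.1)
        · exact absurd hx h3
    have h3 : I.card + S.card ≤ ((I \ T) ∪ S).card + t := by
      rw [Finset.card_union_of_disjoint]
      · have h4 := Finset.card_le_card_sdiff_add_card (s := I) (t := T)
        rw [hT.2] at h4
        omega
      · rw [Finset.disjoint_left]
        intro x hx hx'
        exact (hSU x hx').2.1 (mem_sdiff.1 hx).1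
    have h4 : (β : ℤ) * (((I \ T) ∪ S).image Φ').card ≤ β * ((I.image Φ).card + 1) := by
      have : (((((I \ T) ∪ S).image Φ').card : ℕ) : ℤ) ≤ (I.image Φ).card + 1 := by exact_mod_cast h2
      exact mul_le_mul_of_nonneg_left this (by positivity)
    have h5 : (I.card : ℤ) + S.card ≤ (((I \ T) ∪ S).card : ℤ) + t := by exact_mod_cast h3
    have h6 : (t : ℤ) + β < S.card := by exact_mod_cast hS
    linarith

end Pool.Agent.X44.InvPath
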