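import Mathlib

/-!
# Packings of complete bipartite graphs `K_{t,*}` in a host graph
-/

set_option autoImplicit false

namespace Pool.Agent.X44.InvPath

open Finset

variable {V : Type*}

/-- A packing: every vertex `x` of `I` is joined to the `t`-set `Φ x`, which lies in `W` outside of
`I`, and these sets are equal or disjoint. -/
structure IsPacking [DecidableEq V] (G : SimpleGraph V) (t : ℕ) (W I : Finset V)
    (Φ : V → Finset V) : Prop where
  sub : I ⊆ W
  sub' : ∀ x ∈ I, Φ x ⊆ W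
  card : ∀ x ∈ I, (Φ x).card = t
  out : ∀ x ∈ I, ∀ y ∈ Φ x, y ∉ I
  adj : ∀ x ∈ I, ∀ y ∈ Φ x, G.Adj x y
  eq : ∀ x ∈ I, ∀ x' ∈ I, ∀ y, y ∈ Φ x → y ∈ Φ x' → Φ x = Φ x'

/-- the graph of a packing -/
def packGraph (I : Finset V) (Φ : V → Finset V) : SimpleGraph V where
  Adj x y := x ≠ y ∧ ((x ∈ I ∧ y ∈ Φ x) ∨ (y ∈ I ∧ x ∈ Φ y))
  symm := ⟨fun x y h => ⟨h.1.symm, h.2.symm⟩⟩
  loopless := ⟨fun x h => h.1 rfl⟩

section

variable [DecidableEq V] {G : SimpleGraph V} {t : ℕ} {W I : Finset V} {Φ : V → Finset V}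

theorem packGraph_le (h : IsPacking G t W I Φ) : packGraph I Φ ≤ G := by
  intro x y hxy
  rcases hxy.2 with ⟨h1, h2⟩ | ⟨h1, h2⟩
  · exact h.adj x h1 y h2
  · exact (h.adj y h1 x h2).symm

/-- a packing graph contains no path with `2 t + 1` edges -/
theorem packGraph_free (h : IsPacking G t W I Φ) :
    (SimpleGraph.pathGraph (2 * t + 2)).Free (packGraph I Φ) := by
  rintro ⟨f⟩
  have hinj : Function.Injective f := f.injective
  have hadj : ∀ (i : ℕ) (hi : i + 1 < 2 * t + 2),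
      (packGraph I Φ).Adj (f ⟨i, by omega⟩) (f ⟨i + 1, hi⟩) := by
    intro i hi
    apply f.toHom.map_adj
    rw [SimpleGraph.pathGraph_adj]
    exact Or.inl rfl
  -- all vertices of the path belong to the same class
  obtain ⟨C, hC0, hCcard, x0, hx0, hx0C⟩ : ∃ C : Finset V,
      ((f ⟨0, by omega⟩ ∈ I → Φ (f ⟨0, by omega⟩) = C) ∧
        (f ⟨0, by omega⟩ ∉ I → f ⟨0, by omega⟩ ∈ C)) ∧ C.card = t ∧ ∃ x0 ∈ I, Φ x0 = C := by
    have h01 := hadj 0 (by omega)
    by_cases h0 : f ⟨0, by omega⟩ ∈ I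
    · exact ⟨Φ (f ⟨0, by omega⟩), ⟨fun _ => rfl, fun h1 => absurd h0 h1⟩, h.card _ h0, _, h0, rfl⟩
    · rcases h01.2 with ⟨h1, h2⟩ | ⟨h1, h2⟩
      · exact absurd h1 h0
      · exact ⟨Φ (f ⟨0 + 1, by omega⟩), ⟨fun h3 => absurd h3 h0, fun _ => h2⟩, h.card _ h1, _, h1,
          rfl⟩
  have hclass : ∀ (i : ℕ) (hi : i < 2 * t + 2),
      (f ⟨i, hi⟩ ∈ I → Φ (f ⟨i, hi⟩) = C) ∧ (f ⟨i, hi⟩ ∉ I → f ⟨i, hi⟩ ∈ C) := by
    intro i
    induction i with
    | zero => intro hi; exact hC0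
    | succ i ih =>
      intro hi
      have ih' := ih (by omega)
      rcases (hadj i hi).2 with ⟨h1, h2⟩ | ⟨h1, h2⟩
      · have hC := ih'.1 h1
        refine ⟨fun h3 => absurd h3 (h.out _ h1 _ h2), fun _ => ?_⟩
        rw [← hC]; exact h2
      · refine ⟨fun _ => ?_, fun h3 => absurd h1 h3⟩
        have h4 : f ⟨i, by omega⟩ ∉ I := h.out _ h1 _ h2
        have h5 := ih'.2 h4
        rw [← hx0C] at h5 ⊢
        exact h.eq _ h1 _ hx0 _ h2 h5
  -- among two consecutive vertices one is outside of `I`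
  have hpair : ∀ j : Fin (t + 1), ∃ b : ℕ, b < 2 ∧ ∃ hb : 2 * j.val + b < 2 * t + 2,
      f ⟨2 * j.val + b, hb⟩ ∉ I := by
    intro j
    have hj := j.isLt
    rcases (hadj (2 * j.val) (by omega)).2 with ⟨h1, h2⟩ | ⟨h1, h2⟩
    · exact ⟨1, by norm_num, by omega, h.out _ h1 _ h2⟩
    · exact ⟨0, by norm_num, by omega, h.out _ h1 _ h2⟩
  choose b hb2 hb hbI using hpair
  have hcard := Finset.card_le_card_of_injOn (s := (univ : Finset (Fin (t + 1)))) (t := C)
    (fun j => f ⟨2 * j.val + b j, hb j⟩) (fun j _ => (hclass _ (hb j)).2 (hbI j)) (by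
      intro j _ j' _ hjj
      have := congrArg Fin.val (hinj hjj)
      simp only at this
      have h1 := hb2 j
      have h2 := hb2 j'
      apply Fin.ext
      omega)
  rw [Finset.card_univ, Fintype.card_fin, hCcard] at hcard
  omega

/-- the number of edges of a packing graph -/
theorem packGraph_card [Finite V] (h : IsPacking G t W I Φ) :
    t * I.card ≤ (packGraph I Φ).edgeSet.ncard := by
  classical
  have h1 : (I.sigma fun x => Φ x).card = t * I.card := by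
    rw [Finset.card_sigma, Finset.sum_congr rfl (fun x hx => h.card x hx), Finset.sum_const,
      smul_eq_mul, mul_comm]
  rw [← h1, ← Set.ncard_coe_finset]
  apply Set.ncard_le_ncard_of_injOn (fun p : (Σ _ : V, V) => s(p.1, p.2))
  · rintro ⟨x, y⟩ hp
    rw [Finset.mem_coe, Finset.mem_sigma] at hp
    obtain ⟨hx, hy⟩ : x ∈ I ∧ y ∈ Φ x := hp
    show (packGraph I Φ).Adj x y
    refine ⟨?_, Or.inl ⟨hx, hy⟩⟩
    intro hxy
    exact h.out _ hx _ hy (hxy ▸ hx)
  · rintro ⟨x, y⟩ hp ⟨x', y'⟩ hp' he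
    rw [Finset.mem_coe, Finset.mem_sigma] at hp hp'
    obtain ⟨hx, hy⟩ : x ∈ I ∧ y ∈ Φ x := hp
    obtain ⟨hx', hy'⟩ : x' ∈ I ∧ y' ∈ Φ x' := hp'
    have he' : s(x, y) = s(x', y') := he
    rw [Sym2.eq_iff] at he'
    rcases he' with ⟨h2, h3⟩ | ⟨h2, h3⟩
    · rw [h2, h3]
    · exact absurd (h3 ▸ hx') (h.out _ hx _ hy)

end

/-- The largest number of edges of a subgraph of `G` without a copy of `F`. -/
noncomputable def exIn {W : Type*} (G : SimpleGraph V) (F : SimpleGraph W) : ℕ :=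
  sSup {e | ∃ H : SimpleGraph V, H ≤ G ∧ F.Free H ∧ H.edgeSet.ncard = e}

theorem exIn_bdd [Finite V] {W : Type*} (G : SimpleGraph V) (F : SimpleGraph W) :
    BddAbove {e | ∃ H : SimpleGraph V, H ≤ G ∧ F.Free H ∧ H.edgeSet.ncard = e} := by
  refine ⟨G.edgeSet.ncard, ?_⟩
  rintro e ⟨H, hH, -, rfl⟩
  exact Set.ncard_le_ncard (SimpleGraph.edgeSet_mono hH) (Set.toFinite _)

theorem le_exIn [Finite V] {W : Type*} {G H : SimpleGraph V} {F : SimpleGraph W} (hH : H ≤ G)
    (hF : F.Free H) : H.edgeSet.ncard ≤ exIn G F :=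
  le_csSup (exIn_bdd G F) ⟨H, hH, hF, rfl⟩

theorem pack_le_exIn [Finite V] [DecidableEq V] {G : SimpleGraph V} {t : ℕ} {W I : Finset V}
    {Φ : V → Finset V} (h : IsPacking G t W I Φ) :
    t * I.card ≤ exIn G (SimpleGraph.pathGraph (2 * t + 2)) :=
  (packGraph_card h).trans (le_exIn (packGraph_le h) (packGraph_free h))

/-- packings by stars give a subgraph without paths with `2 t + 1` edges -/
theorem star_le_exIn [Finite V] [DecidableEq V] {G : SimpleGraph V} {t : ℕ} (ht : 1 ≤ t)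
    {W I : Finset V} {Φ : V → Finset V} (h : IsPacking G 1 W I Φ) :
    I.card ≤ exIn G (SimpleGraph.pathGraph (2 * t + 2)) := by
  have h1 := packGraph_card h
  rw [one_mul] at h1
  refine h1.trans (le_exIn (packGraph_le h) ?_)
  intro hc
  apply packGraph_free h
  refine SimpleGraph.IsContained.trans ?_ hc
  refine ⟨⟨⟨fun i => ⟨i.val, by omega⟩, ?_⟩, ?_⟩⟩
  · intro a b hab
    rw [SimpleGraph.pathGraph_adj] at hab ⊢
    exact hab
  · intro a b hab
    exact Fin.ext (by simpa using hab)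

end Pool.Agent.X44.InvPath
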