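import Pool.Agent.X44.InvPath.Host

/-!
# The upper bound
-/

set_option autoImplicit false

namespace Pool.Agent.X44.InvPath

open Finset

variable {V : Type*} [Fintype V] [DecidableEq V]

/-- comparison of binomial coefficients -/
theorem choose_ratio (t D w : ℕ) (c : ℝ) (hc : 0 < c) (hD : 2 * t ≤ D) (hD0 : 0 < D)
    (hw : c * w ≤ D) : (w.choose t : ℝ) ≤ (2 / c) ^ t * (D.choose t : ℝ) := by
  have h1 : (w.choose t : ℝ) ≤ (w : ℝ) ^ t / (t.factorial : ℝ) := Nat.choose_le_pow_div t w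
  have h2 : ((D + 1 - t : ℕ) : ℝ) ^ t / (t.factorial : ℝ) ≤ (D.choose t : ℝ) := Nat.pow_le_choose t D
  have hf : (0 : ℝ) < (t.factorial : ℝ) := by exact_mod_cast t.factorial_pos
  have h3 : (w : ℝ) ≤ (2 / c) * ((D + 1 - t : ℕ) : ℝ) := by
    have h4 : (D : ℝ) / 2 ≤ ((D + 1 - t : ℕ) : ℝ) := by
      have : D ≤ 2 * (D + 1 - t) := by omega
      have h5 : (D : ℝ) ≤ 2 * ((D + 1 - t : ℕ) : ℝ) := by exact_mod_cast this
      linarith
    have h6 : (w : ℝ) ≤ D / c := by rw [le_div_iff₀ hc]; linarith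
    calc (w : ℝ) ≤ D / c := h6
      _ = (2 / c) * (D / 2) := by field_simp
      _ ≤ (2 / c) * ((D + 1 - t : ℕ) : ℝ) := by
        apply mul_le_mul_of_nonneg_left h4; positivity
  calc (w.choose t : ℝ) ≤ (w : ℝ) ^ t / (t.factorial : ℝ) := h1
    _ ≤ ((2 / c) * ((D + 1 - t : ℕ) : ℝ)) ^ t / (t.factorial : ℝ) := by
        gcongr
    _ = (2 / c) ^ t * (((D + 1 - t : ℕ) : ℝ) ^ t / (t.factorial : ℝ)) := by
        rw [mul_pow]; ring
    _ ≤ _ := by
        apply mul_le_mul_of_nonneg_left h2; positivity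

/-- the bound for one host graph -/
theorem host_bound (t : ℕ) (ht : 1 ≤ t) (ε : ℝ) (hε : 0 < ε) (hε1 : ε ≤ 1) :
    ∃ K : ℕ, ∀ k : ℕ, K ≤ k → ∀ (V : Type) [Fintype V] [DecidableEq V] (G : SimpleGraph V)
      [DecidableRel G.Adj], exIn G (SimpleGraph.pathGraph (2 * t + 2)) < k →
      (G.edgeFinset.card : ℝ) ≤ (k : ℝ) ^ 2 / (2 * (t : ℝ) ^ 2) + 10 * ε * (k : ℝ) ^ 2 := by
  obtain ⟨β, hβ⟩ := exists_nat_ge (4 * (t : ℝ) / ε)
  set K1 : ℝ := ((t : ℝ) + β) * (16 / ε) ^ t with hK1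
  have hK1' : 0 ≤ K1 := by positivity
  have htr : (1 : ℝ) ≤ t := by exact_mod_cast ht
  obtain ⟨K, hK⟩ := exists_nat_ge ((4 / ε) * (2 * t + 2) + 2 * t * K1 / ε + 1)
  refine ⟨K, fun k hk V _ _ G _ hG => ?_⟩
  have hkK : (4 / ε) * (2 * t + 2) + 2 * t * K1 / ε + 1 ≤ (k : ℝ) :=
    hK.trans (by exact_mod_cast hk)
  have hk0 : (0 : ℝ) < k := by
    have : 0 ≤ (4 / ε) * (2 * (t : ℝ) + 2) + 2 * t * K1 / ε := by positivity
    linarith
  have hsupp := supp_card G ht
  have hsupp2 : ((supp G).card : ℝ) ≤ 2 * k := by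
    have : (supp G).card ≤ 2 * k := by omega
    exact_mod_cast this
  obtain ⟨W, hWs, hWd, hWe⟩ := exists_core G (ε * k) (by positivity)
  have hWk : (W.card : ℝ) ≤ 2 * k := by
    have : (W.card : ℝ) ≤ (supp G).card := by exact_mod_cast Finset.card_le_card hWs
    linarith
  -- it is enough to bound the size of `W`
  have hred : (W.card : ℝ) ≤ (k : ℝ) / t * (1 + ε / 2) * (1 + ε / 2) →
      (G.edgeFinset.card : ℝ) ≤ (k : ℝ) ^ 2 / (2 * (t : ℝ) ^ 2) + 10 * ε * (k : ℝ) ^ 2 := by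
    intro h
    have h1 : (W.card : ℝ) ^ 2 ≤ ((k : ℝ) / t * (1 + ε / 2) * (1 + ε / 2)) ^ 2 := by
      gcongr
    have h2 : ((k : ℝ) / t * (1 + ε / 2) * (1 + ε / 2)) ^ 2 =
        ((k : ℝ) ^ 2 / (t : ℝ) ^ 2) * (1 + ε / 2) ^ 4 := by
      rw [mul_pow, mul_pow, div_pow]; ring
    have h3 : (1 + ε / 2) ^ 4 ≤ 1 + 6 * ε := by
      have g1 : (1 + ε / 2) ^ 2 ≤ 1 + 5 / 4 * ε := by nlinarith
      have g2 : 0 ≤ (1 + ε / 2) ^ 2 := by positivity
      calc (1 + ε / 2) ^ 4 = (1 + ε / 2) ^ 2 * (1 + ε / 2) ^ 2 := by ring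
        _ ≤ (1 + 5 / 4 * ε) * (1 + 5 / 4 * ε) := by gcongr
        _ ≤ 1 + 6 * ε := by nlinarith
    have h4 : (k : ℝ) ^ 2 / (t : ℝ) ^ 2 ≤ (k : ℝ) ^ 2 := by
      rw [div_le_iff₀ (by positivity)]
      have : (1 : ℝ) ≤ (t : ℝ) ^ 2 := one_le_pow₀ htr
      nlinarith [sq_nonneg (k : ℝ)]
    have h5 : ((k : ℝ) ^ 2 / (t : ℝ) ^ 2) * (1 + ε / 2) ^ 4 ≤
        (k : ℝ) ^ 2 / (t : ℝ) ^ 2 + 6 * ε * (k : ℝ) ^ 2 := by
      have h6 : 0 ≤ (k : ℝ) ^ 2 / (t : ℝ) ^ 2 := by positivity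
      nlinarith
    have h6 : 2 * (ε * k) * ((supp G).card : ℝ) ≤ 4 * ε * (k : ℝ) ^ 2 := by
      have : 0 ≤ 2 * (ε * k) := by positivity
      nlinarith
    have h7 : (k : ℝ) ^ 2 / (2 * (t : ℝ) ^ 2) = (k : ℝ) ^ 2 / (t : ℝ) ^ 2 / 2 := by
      field_simp
    rw [h7]
    have h8 : 0 ≤ ε * (k : ℝ) ^ 2 := by positivity
    linarith
  apply hred
  obtain ⟨I, Φ, hP, hbase, hmain⟩ := exists_packing G t β W
  have hI := pack_le_exIn hP
  have hβ0 : 0 < (β : ℝ) := lt_of_lt_of_le (by positivity) hβ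
  have hIW : I.card ≤ W.card := Finset.card_le_card hP.sub
  have htβ : (t : ℝ) ≤ ε / 4 * β := by
    rw [div_le_iff₀ hε] at hβ
    linarith
  have hbase2 : ((base I Φ).card : ℝ) ≤ ε / 4 * W.card := by
    have h1 : (β : ℝ) * (base I Φ).card ≤ t * W.card := by
      have : β * (base I Φ).card ≤ t * W.card := hbase.trans (Nat.mul_le_mul_left _ hIW)
      exact_mod_cast this
    have h2 : (β : ℝ) * (base I Φ).card ≤ β * (ε / 4 * W.card) := by
      have : (t : ℝ) * W.card ≤ ε / 4 * β * W.card := by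
        apply mul_le_mul_of_nonneg_right htβ; positivity
      calc (β : ℝ) * (base I Φ).card ≤ t * W.card := h1
        _ ≤ ε / 4 * β * W.card := this
        _ = _ := by ring
    exact le_of_mul_le_mul_left h2 hβ0
  -- few vertices are left
  have hleft : ((W \ (I ∪ base I Φ)).card : ℝ) ≤ K1 := by
    set D := ⌊ε * k / 2⌋₊ with hD
    have hD1 : (D : ℝ) ≤ ε * k / 2 := Nat.floor_le (by positivity)
    have hD2 : ε * k / 2 < D + 1 := Nat.lt_floor_add_one _
    have hk4 : 4 / ε * (2 * t + 2) ≤ (k : ℝ) := by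
      have : 0 ≤ 2 * t * K1 / ε := by positivity
      linarith
    have hk5 : 4 * (2 * (t : ℝ) + 2) ≤ ε * k := by
      have : 4 / ε * (2 * (t : ℝ) + 2) = (4 * (2 * t + 2)) / ε := by ring
      rw [this, div_le_iff₀ hε] at hk4
      linarith
    have hD3 : 2 * t ≤ D := by
      have : (2 * (t : ℝ)) < D + 1 := by linarith
      have h2 : 2 * t < D + 1 := by exact_mod_cast this
      omega
    have hD4 : ε / 8 * W.card ≤ (D : ℝ) := by
      have : ε / 8 * W.card ≤ ε / 8 * (2 * k) := by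
        apply mul_le_mul_of_nonneg_left hWk; positivity
      linarith
    have h1 := hmain D (by
      intro w hw
      have h2 := hWd w hw
      have h3 : (D : ℝ) + (base I Φ).card ≤ degIn G W w := by
        have : ε / 4 * (W.card : ℝ) ≤ ε / 4 * (2 * k) :=
          mul_le_mul_of_nonneg_left hWk (by positivity)
        linarith
      exact_mod_cast h3)
    have h2 := choose_ratio t D W.card (ε / 8) (by positivity) hD3 (by omega) hD4
    have h3 : (0 : ℝ) < (D.choose t : ℝ) := by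
      exact_mod_cast Nat.choose_pos (by omega)
    have h4 : ((W \ (I ∪ base I Φ)).card : ℝ) * (D.choose t : ℝ) ≤
        (t + β) * (W.card.choose t : ℝ) := by exact_mod_cast h1
    have h5 : ((W \ (I ∪ base I Φ)).card : ℝ) * (D.choose t : ℝ) ≤ K1 * (D.choose t : ℝ) := by
      refine h4.trans ?_
      rw [hK1]
      have h6 : 2 / (ε / 8) = 16 / ε := by field_simp; norm_num
      rw [h6] at h2
      have : ((t : ℝ) + β) * (W.card.choose t : ℝ) ≤
          (t + β) * ((16 / ε) ^ t * (D.choose t : ℝ)) := by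
        apply mul_le_mul_of_nonneg_left h2; positivity
      calc _ ≤ _ := this
        _ = _ := by ring
    exact le_of_mul_le_mul_right h5 h3
  -- conclusion
  have hcount : (W.card : ℝ) ≤ I.card + (base I Φ).card + (W \ (I ∪ base I Φ)).card := by
    have h1 : W.card ≤ (I ∪ base I Φ).card + (W \ (I ∪ base I Φ)).card := by
      have := Finset.card_le_card_sdiff_add_card (s := W) (t := I ∪ base I Φ)
      omega
    have h2 := Finset.card_union_le I (base I Φ)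
    have : W.card ≤ I.card + (base I Φ).card + (W \ (I ∪ base I Φ)).card := by omega
    exact_mod_cast this
  have hIk : (I.card : ℝ) ≤ k / t := by
    rw [le_div_iff₀ (by linarith)]
    have : t * I.card ≤ k := by omega
    have h2 : (t : ℝ) * I.card ≤ k := by exact_mod_cast this
    linarith
  have hWb : (W.card : ℝ) * (1 - ε / 4) ≤ k / t + K1 := by linarith
  have hK1k : K1 ≤ (k : ℝ) / t * (ε / 2) := by
    have h1 : 2 * t * K1 / ε ≤ (k : ℝ) := by
      have : 0 ≤ (4 / ε) * (2 * (t : ℝ) + 2) := by positivity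
      linarith
    rw [div_le_iff₀ hε] at h1
    have h2 : (k : ℝ) / t * (ε / 2) = k * ε / (2 * t) := by
      field_simp
    rw [h2, le_div_iff₀ (by positivity)]
    linarith
  have h9 : (W.card : ℝ) * (1 - ε / 4) ≤ k / t * (1 + ε / 2) := by linarith
  have h10 : (1 : ℝ) ≤ (1 - ε / 4) * (1 + ε / 2) := by nlinarith
  have h11 : 0 ≤ (k : ℝ) / t * (1 + ε / 2) := by positivity
  calc (W.card : ℝ) ≤ W.card * ((1 - ε / 4) * (1 + ε / 2)) := by
        nlinarith [(Nat.cast_nonneg W.card : (0 : ℝ) ≤ W.card)]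
    _ = (W.card * (1 - ε / 4)) * (1 + ε / 2) := by ring
    _ ≤ (k / t * (1 + ε / 2)) * (1 + ε / 2) := by
        apply mul_le_mul_of_nonneg_right h9; positivity

end Pool.Agent.X44.InvPath
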